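import Pool.Agent.Helper43.LS.Chk

/-!
# Project LS, module LS-6: soundness of the checker
-/

set_option autoImplicit false

namespace Pool.LS

namespace Sound

/-! ### Booleans -/

theorem bif_true {c a b : Bool} :
    (bif c then a else b) = true ↔ (c = true → a = true) ∧ (c = false → b = true) := by
  cases c <;> simp

theorem ble_true {a b : ℕ} : Nat.ble a b = true ↔ a ≤ b := by rw [Nat.ble_eq]

theorem ble_false {a b : ℕ} : Nat.ble a b = false ↔ b < a := by
  rw [← Bool.not_eq_true, ble_true]; omega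

theorem blt_true {a b : ℕ} : Nat.blt a b = true ↔ a < b := by rw [Nat.blt_eq]

theorem blt_false {a b : ℕ} : Nat.blt a b = false ↔ b ≤ a := by
  rw [← Bool.not_eq_true, blt_true]; omega

theorem nbeq_true {a b : ℕ} : Nat.beq a b = true ↔ a = b := by rw [Nat.beq_eq]

theorem nbeq_false {a b : ℕ} : Nat.beq a b = false ↔ a ≠ b := by
  rw [← Bool.not_eq_true, nbeq_true]

theorem allN_true {n : ℕ} {f : ℕ → Bool} : allN n f = true ↔ ∀ i < n, f i = true := by
  induction n with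
  | zero => simp [allN]
  | succ n ih =>
    rw [allN, Bool.and_eq_true, ih]
    constructor
    · rintro ⟨h1, h2⟩ i hi
      rcases Nat.lt_succ_iff_lt_or_eq.mp hi with h | h
      · exact h2 i h
      · rw [h]; exact h1
    · intro h
      exact ⟨h n (Nat.lt_succ_self n), fun i hi => h i (Nat.lt_succ_of_lt hi)⟩

/-! ### The labels -/

theorem decL_A {l : ℕ} (h : l < 32) : decL l = .A l := by
  unfold decL; rw [blt_true.mpr h]; rfl

theorem decL_L {l : ℕ} (h : 32 ≤ l) (h' : l < 48) : decL l = .L (l - 32) := by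
  unfold decL; rw [blt_false.mpr h, blt_true.mpr h']; rfl

theorem decL_B {l : ℕ} (h : 48 ≤ l) (h' : l < 53) : decL l = .B (l - 48) := by
  unfold decL; rw [blt_false.mpr (by omega : 32 ≤ l), blt_false.mpr h, blt_true.mpr h']; rfl

theorem decL_C {l : ℕ} (h : 53 ≤ l) : decL l = .C (l - 53) := by
  unfold decL
  rw [blt_false.mpr (by omega : 32 ≤ l), blt_false.mpr (by omega : 48 ≤ l), blt_false.mpr h]; rfl

/-- the four cases -/
theorem decL_cases (l : ℕ) : (l < 32 ∧ decL l = .A l) ∨ (32 ≤ l ∧ l < 48 ∧ decL l = .L (l - 32)) ∨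
    (48 ≤ l ∧ l < 53 ∧ decL l = .B (l - 48)) ∨ (53 ≤ l ∧ decL l = .C (l - 53)) := by
  rcases Nat.lt_or_ge l 32 with h | h
  · exact Or.inl ⟨h, decL_A h⟩
  rcases Nat.lt_or_ge l 48 with h' | h'
  · exact Or.inr (Or.inl ⟨h, h', decL_L h h'⟩)
  rcases Nat.lt_or_ge l 53 with h'' | h''
  · exact Or.inr (Or.inr (Or.inl ⟨h', h'', decL_B h' h''⟩))
  · exact Or.inr (Or.inr (Or.inr ⟨h'', decL_C h''⟩))

theorem decL_B_iff {l j : ℕ} : decL l = .B j ↔ 48 ≤ l ∧ l < 53 ∧ j = l - 48 := by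
  rcases decL_cases l with ⟨h, e⟩ | ⟨h, h', e⟩ | ⟨h, h', e⟩ | ⟨h, e⟩
  · rw [e]; constructor
    · intro k; cases k
    · intro k; omega
  · rw [e]; constructor
    · intro k; cases k
    · intro k; omega
  · rw [e]; constructor
    · intro k; injection k with k; exact ⟨h, h', k.symm⟩
    · intro k; rw [k.2.2]
  · rw [e]; constructor
    · intro k; cases k
    · intro k; omega

theorem decL_C_iff {l j : ℕ} : decL l = .C j ↔ 53 ≤ l ∧ j = l - 53 := by
  rcases decL_cases l with ⟨h, e⟩ | ⟨h, h', e⟩ | ⟨h, h', e⟩ | ⟨h, e⟩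
  · rw [e]; constructor
    · intro k; cases k
    · intro k; omega
  · rw [e]; constructor
    · intro k; cases k
    · intro k; omega
  · rw [e]; constructor
    · intro k; cases k
    · intro k; omega
  · rw [e]; constructor
    · intro k; injection k with k; exact ⟨h, k.symm⟩
    · intro k; rw [k.2]

theorem decL_B4 {l : ℕ} : decL l = .B 4 ↔ l = 52 := by rw [decL_B_iff]; omega
theorem decL_B0 {l : ℕ} : decL l = .B 0 ↔ l = 48 := by rw [decL_B_iff]; omega
theorem decL_C5 {l : ℕ} : decL l = .C 5 ↔ l = 58 := by rw [decL_C_iff]; omega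
theorem decL_C0 {l : ℕ} : decL l = .C 0 ↔ l = 53 := by rw [decL_C_iff]; omega

/-- the next label -/
theorem decL_next {l l' : ℕ} (h52 : l ≠ 52) (h : l' = bif Nat.blt l 48 then l else l + 1) :
    decL l' = (decL l).next := by
  rcases Nat.lt_or_ge l 48 with h48 | h48
  · rw [blt_true.mpr h48] at h
    change l' = l at h
    rw [h]
    rcases decL_cases l with ⟨k, e⟩ | ⟨k, k', e⟩ | ⟨k, k', e⟩ | ⟨k, e⟩
    · rw [e]; rfl
    · rw [e]; rfl
    · omega
    · omega
  · rw [blt_false.mpr h48] at h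
    change l' = l + 1 at h
    rw [h]
    rcases Nat.lt_or_ge l 53 with h53 | h53
    · rw [decL_B h48 h53, decL_B (by omega) (by omega)]
      change LLab.B (l + 1 - 48) = LLab.B (l - 48 + 1)
      congr 1; omega
    · rw [decL_C h53, decL_C (by omega)]
      change LLab.C (l + 1 - 53) = LLab.C (l - 53 + 1)
      congr 1; omega

theorem topAB_iff (l : ℕ) (e : Mon) :
    topAB l e.e1 e.e2 e.e3 e.e4 e.e5 = true ↔ isTopA (decL l) e := by
  unfold topAB
  rw [bif_true, Bool.and_eq_true, nbeq_true, nbeq_true, blt_true, blt_true, blt_false]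
  rcases decL_cases l with ⟨h, k⟩ | ⟨h, h', k⟩ | ⟨h, h', k⟩ | ⟨h, k⟩
  · rw [k]; simp only [isTopA, up, dn]; omega
  · rw [k]; simp only [isTopA, up, dn, deg]; omega
  · rw [k]; exact ⟨fun q => by omega, fun q => q.elim⟩
  · rw [k]; exact ⟨fun q => by omega, fun q => q.elim⟩

theorem botAB_iff (l : ℕ) (e : Mon) :
    botAB l e.e1 e.e2 e.e3 e.e4 e.e5 = true ↔ isBotA (decL l) e := by
  unfold botAB
  rw [bif_true, Bool.and_eq_true, nbeq_true, nbeq_true, blt_true, blt_true, blt_false]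
  rcases decL_cases l with ⟨h, k⟩ | ⟨h, h', k⟩ | ⟨h, h', k⟩ | ⟨h, k⟩
  · rw [k]; simp only [isBotA, up, dn]; omega
  · rw [k]; simp only [isBotA, up, dn, deg]; omega
  · rw [k]; exact ⟨fun q => by omega, fun q => q.elim⟩
  · rw [k]; exact ⟨fun q => by omega, fun q => q.elim⟩

theorem rangeB_imp (l : ℕ) (e : Mon) (h : rangeB l e.e1 e.e2 e.e3 e.e4 e.e5 = true) :
    inRange (decL l) e := by
  unfold rangeB at h
  rw [bif_true, bif_true, Bool.and_eq_true, Bool.and_eq_true, ble_true, ble_true, ble_true,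
    ble_true, blt_true, blt_true, blt_true, blt_false, blt_false] at h
  rcases decL_cases l with ⟨k1, k⟩ | ⟨k1, k2, k⟩ | ⟨k1, k2, k⟩ | ⟨k1, k⟩
  · rw [k]; simp only [inRange, up, dn]; omega
  · rw [k]; simp only [inRange, up, dn, deg]; omega
  · rw [k]; simp only [inRange]; omega
  · rw [k]; simp only [inRange]; omega

theorem redB_iff (e1 e2 e3 e4 e5 : ℕ) :
    redB e1 e2 e3 e4 e5 = true ↔ Red 2 2 ⟨e1, e2, e3, e4, e5⟩ := by
  unfold redB Red
  rw [Bool.and_eq_true, Bool.and_eq_true, Bool.or_eq_true, Bool.or_eq_true, ble_true, ble_true,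
    ble_true, ble_true, ble_true]
  constructor
  · rintro ⟨⟨h1, h2⟩, h3⟩
    refine ⟨h1, ?_, ?_⟩
    · rcases h2 with h | h
      · exact Or.inl (by show e1 < 2; omega)
      · exact Or.inr (by show e3 < 3 * 2; omega)
    · rcases h3 with h | h
      · exact Or.inl (by show e2 < 5 * 2; omega)
      · exact Or.inr (by show e5 < 2; omega)
  · rintro ⟨h1, h2, h3⟩
    refine ⟨⟨h1, ?_⟩, ?_⟩
    · rcases h2 with h | h
      · exact Or.inl (by change e1 < 2 at h; omega)
      · exact Or.inr (by change e3 < 3 * 2 at h; omega)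
    · rcases h3 with h | h
      · exact Or.inl (by change e2 < 5 * 2 at h; omega)
      · exact Or.inr (by change e5 < 2 at h; omega)

/-! ### Predecessors -/

theorem p1_iff (C : ℕ → ℕ → ℕ → ℕ → ℕ → ℕ) (e : Mon) :
    p1B C e.e1 e.e2 e.e3 e.e4 e.e5 = true ↔ Pred (moOf C) 1 e := by
  unfold p1B Pred
  rw [Bool.and_eq_true, Bool.and_eq_true, redB_iff, ble_true, nbeq_true]
  constructor
  · rintro ⟨⟨h1, h2⟩, h3⟩
    exact ⟨_, by simp only [mvB]; rw [if_pos h1], h2, h3⟩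
  · rintro ⟨g, h1, h2, h3⟩
    simp only [mvB] at h1
    by_cases hc : 1 ≤ e.e2
    · rw [if_pos hc] at h1
      injection h1 with h1
      subst h1
      exact ⟨⟨hc, h2⟩, h3⟩
    · rw [if_neg hc] at h1
      cases h1

theorem p2_iff (C : ℕ → ℕ → ℕ → ℕ → ℕ → ℕ) (e : Mon) :
    p2B C e.e1 e.e2 e.e3 e.e4 e.e5 = true ↔ Pred (moOf C) 2 e := by
  unfold p2B Pred
  rw [Bool.and_eq_true, Bool.and_eq_true, redB_iff, ble_true, nbeq_true]
  constructor
  · rintro ⟨⟨h1, h2⟩, h3⟩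
    exact ⟨_, by simp only [mvB]; rw [if_pos h1], h2, h3⟩
  · rintro ⟨g, h1, h2, h3⟩
    simp only [mvB] at h1
    by_cases hc : 1 ≤ e.e3
    · rw [if_pos hc] at h1
      injection h1 with h1
      subst h1
      exact ⟨⟨hc, h2⟩, h3⟩
    · rw [if_neg hc] at h1
      cases h1

theorem p3_iff (C : ℕ → ℕ → ℕ → ℕ → ℕ → ℕ) (e : Mon) :
    p3B C e.e1 e.e2 e.e3 e.e4 e.e5 = true ↔ Pred (moOf C) 3 e := by
  unfold p3B Pred
  rw [Bool.and_eq_true, Bool.and_eq_true, redB_iff, ble_true, nbeq_true]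
  constructor
  · rintro ⟨⟨h1, h2⟩, h3⟩
    exact ⟨_, by simp only [mvB]; rw [if_pos h1], h2, h3⟩
  · rintro ⟨g, h1, h2, h3⟩
    simp only [mvB] at h1
    by_cases hc : 1 ≤ e.e4
    · rw [if_pos hc] at h1
      injection h1 with h1
      subst h1
      exact ⟨⟨hc, h2⟩, h3⟩
    · rw [if_neg hc] at h1
      cases h1

theorem p4_iff (C : ℕ → ℕ → ℕ → ℕ → ℕ → ℕ) (e : Mon) :
    p4B C e.e1 e.e2 e.e3 e.e4 e.e5 = true ↔ Pred (moOf C) 4 e := by
  unfold p4B Pred
  rw [Bool.and_eq_true, Bool.and_eq_true, redB_iff, ble_true, nbeq_true]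
  constructor
  · rintro ⟨⟨h1, h2⟩, h3⟩
    exact ⟨_, by simp only [mvB]; rw [if_pos h1], h2, h3⟩
  · rintro ⟨g, h1, h2, h3⟩
    simp only [mvB] at h1
    by_cases hc : 1 ≤ e.e5
    · rw [if_pos hc] at h1
      injection h1 with h1
      subst h1
      exact ⟨⟨hc, h2⟩, h3⟩
    · rw [if_neg hc] at h1
      cases h1

/-- only the moves `1, 2, 3, 4` have predecessors -/
theorem pred_cases {mo : Mon → ℕ} {k : ℕ} {e : Mon} (h : Pred mo k e) :
    (k = 1 ∧ Pred mo 1 e) ∨ (k = 2 ∧ Pred mo 2 e) ∨ (k = 3 ∧ Pred mo 3 e) ∨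
      (k = 4 ∧ Pred mo 4 e) := by
  match k, h with
  | 0, h => obtain ⟨g, hg, _⟩ := h; cases hg
  | 1, h => exact Or.inl ⟨rfl, h⟩
  | 2, h => exact Or.inr (Or.inl ⟨rfl, h⟩)
  | 3, h => exact Or.inr (Or.inr (Or.inl ⟨rfl, h⟩))
  | 4, h => exact Or.inr (Or.inr (Or.inr ⟨rfl, h⟩))
  | n + 5, h => obtain ⟨g, hg, _⟩ := h; cases hg

theorem one4_ex {a b c d : Bool} (h : one4 a b c d = true) :
    a = true ∨ b = true ∨ c = true ∨ d = true := by
  revert h; cases a <;> cases b <;> cases c <;> cases d <;> simp [one4]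

theorem one4_12 {a b c d : Bool} (h : one4 a b c d = true) : ¬ (a = true ∧ b = true) := by
  revert h; cases a <;> cases b <;> cases c <;> cases d <;> simp [one4]
theorem one4_13 {a b c d : Bool} (h : one4 a b c d = true) : ¬ (a = true ∧ c = true) := by
  revert h; cases a <;> cases b <;> cases c <;> cases d <;> simp [one4]
theorem one4_14 {a b c d : Bool} (h : one4 a b c d = true) : ¬ (a = true ∧ d = true) := by
  revert h; cases a <;> cases b <;> cases c <;> cases d <;> simp [one4]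
theorem one4_23 {a b c d : Bool} (h : one4 a b c d = true) : ¬ (b = true ∧ c = true) := by
  revert h; cases a <;> cases b <;> cases c <;> cases d <;> simp [one4]
theorem one4_24 {a b c d : Bool} (h : one4 a b c d = true) : ¬ (b = true ∧ d = true) := by
  revert h; cases a <;> cases b <;> cases c <;> cases d <;> simp [one4]
theorem one4_34 {a b c d : Bool} (h : one4 a b c d = true) : ¬ (c = true ∧ d = true) := by
  revert h; cases a <;> cases b <;> cases c <;> cases d <;> simp [one4]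

/-- the step -/
theorem step_imp (C : ℕ → ℕ → ℕ → ℕ → ℕ → ℕ) (l m : ℕ) (e : Mon) (h52 : l ≠ 52)
    (h : stepB C l m e.e1 e.e2 e.e3 e.e4 e.e5 = true) :
    ∃ f, mvF m e = some f ∧ Red 2 2 f ∧ labOf C f = (decL l).next := by
  unfold stepB at h
  rw [bif_true, nbeq_true, nbeq_false] at h
  by_cases h1 : m = 1
  · have h := h.1 h1
    rw [Bool.and_eq_true, Bool.and_eq_true, redB_iff, ble_true, nbeq_true] at h
    obtain ⟨⟨k1, k2⟩, k3⟩ := h
    exact ⟨_, by rw [h1]; simp only [mvF]; rw [if_pos k1], k2, decL_next h52 k3⟩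
  have h := h.2 h1
  rw [bif_true, nbeq_true, nbeq_false] at h
  by_cases h2 : m = 2
  · have h := h.1 h2
    rw [Bool.and_eq_true, Bool.and_eq_true, redB_iff, ble_true, nbeq_true] at h
    obtain ⟨⟨k1, k2⟩, k3⟩ := h
    exact ⟨_, by rw [h2]; simp only [mvF]; rw [if_pos k1], k2, decL_next h52 k3⟩
  have h := h.2 h2
  rw [bif_true, nbeq_true, nbeq_false] at h
  by_cases h3 : m = 3
  · have h := h.1 h3
    rw [Bool.and_eq_true, Bool.and_eq_true, redB_iff, ble_true, nbeq_true] at h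
    obtain ⟨⟨k1, k2⟩, k3⟩ := h
    exact ⟨_, by rw [h3]; simp only [mvF]; rw [if_pos k1], k2, decL_next h52 k3⟩
  have h := h.2 h3
  rw [Bool.and_eq_true, Bool.and_eq_true, Bool.and_eq_true, redB_iff, ble_true, nbeq_true,
    nbeq_true] at h
  obtain ⟨⟨⟨h4, k1⟩, k2⟩, k3⟩ := h
  exact ⟨_, by rw [h4]; simp only [mvF]; rw [if_pos k1], k2, decL_next h52 k3⟩

end Sound

open Sound in
theorem chk_sound (C : ℕ → ℕ → ℕ → ℕ → ℕ → ℕ) (e : Mon)
    (h : chk C e.e1 e.e2 e.e3 e.e4 e.e5 = true) :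
    Loc (labOf C) (moOf C) e ∧ ZoneOK (labOf C) e := by
  unfold chk at h
  have hl : labOf C e = decL (C e.e1 e.e2 e.e3 e.e4 e.e5 / 8) := rfl
  have hm : moOf C e = C e.e1 e.e2 e.e3 e.e4 e.e5 % 8 := rfl
  generalize C e.e1 e.e2 e.e3 e.e4 e.e5 / 8 = l at h hl
  generalize C e.e1 e.e2 e.e3 e.e4 e.e5 % 8 = m at h hm
  unfold chkK at h
  simp only [Bool.and_eq_true] at h
  obtain ⟨⟨⟨⟨⟨⟨⟨⟨⟨⟨⟨h1, h2⟩, h3⟩, h4⟩, h5⟩, h6⟩, h7⟩, h8⟩, h9⟩, h10⟩, h11⟩, h12⟩ := h
  -- the beginning and the end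
  have hbeg : (isBotA (labOf C e) e ∨ labOf C e = .B 0 ∨ labOf C e = .C 0) ↔
      (botAB l e.e1 e.e2 e.e3 e.e4 e.e5 || Nat.beq l 48 || Nat.beq l 53) = true := by
    rw [hl, Bool.or_eq_true, Bool.or_eq_true, nbeq_true, nbeq_true, botAB_iff, decL_B0, decL_C0,
      or_assoc]
  have hunique : ∀ k k', Pred (moOf C) k e → Pred (moOf C) k' e → k = k' := by
    intro k k' hk hk'
    rw [bif_true] at h3
    cases hb : (botAB l e.e1 e.e2 e.e3 e.e4 e.e5 || Nat.beq l 48 || Nat.beq l 53) with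
    | true =>
      have h := h3.1 hb
      simp only [Bool.and_eq_true, Bool.not_eq_true', ← Bool.not_eq_true, p1_iff, p2_iff, p3_iff,
        p4_iff] at h
      obtain ⟨⟨⟨n1, n2⟩, n3⟩, n4⟩ := h
      rcases pred_cases hk with ⟨-, h⟩ | ⟨-, h⟩ | ⟨-, h⟩ | ⟨-, h⟩
      · exact absurd h n1
      · exact absurd h n2
      · exact absurd h n3
      · exact absurd h n4
    | false =>
      have h := h3.2 hb
      have n12 := one4_12 h
      have n13 := one4_13 h
      have n14 := one4_14 h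
      have n23 := one4_23 h
      have n24 := one4_24 h
      have n34 := one4_34 h
      rw [p1_iff, p2_iff] at n12
      rw [p1_iff, p3_iff] at n13
      rw [p1_iff, p4_iff] at n14
      rw [p2_iff, p3_iff] at n23
      rw [p2_iff, p4_iff] at n24
      rw [p3_iff, p4_iff] at n34
      rcases pred_cases hk with ⟨a, p⟩ | ⟨a, p⟩ | ⟨a, p⟩ | ⟨a, p⟩ <;>
        rcases pred_cases hk' with ⟨b, q⟩ | ⟨b, q⟩ | ⟨b, q⟩ | ⟨b, q⟩ <;>
        first
          | exact a.trans b.symm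
          | exact (n12 ⟨p, q⟩).elim
          | exact (n13 ⟨p, q⟩).elim
          | exact (n14 ⟨p, q⟩).elim
          | exact (n23 ⟨p, q⟩).elim
          | exact (n24 ⟨p, q⟩).elim
          | exact (n34 ⟨p, q⟩).elim
          | exact (n12 ⟨q, p⟩).elim
          | exact (n13 ⟨q, p⟩).elim
          | exact (n14 ⟨q, p⟩).elim
          | exact (n23 ⟨q, p⟩).elim
          | exact (n24 ⟨q, p⟩).elim
          | exact (n34 ⟨q, p⟩).elim
  refine ⟨⟨?_, ?_, ?_, ?_, hunique, ?_, ?_, ?_, ?_, ?_⟩, ⟨?_, ?_, ?_, ?_, ?_⟩⟩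
  · -- range
    rw [hl]; exact rangeB_imp l e h1
  · -- step
    intro hmo
    rw [hm] at hmo ⊢
    rw [bif_true, nbeq_true, nbeq_false] at h2
    have h := h2.2 hmo
    simp only [Bool.and_eq_true, Bool.not_eq_true', ← Bool.not_eq_true, topAB_iff, nbeq_true] at h
    obtain ⟨⟨⟨n1, n2⟩, n3⟩, n4⟩ := h
    obtain ⟨f, f1, f2, f3⟩ := step_imp C l m e n2 n4
    rw [hl]
    exact ⟨f, f1, f2, f3, n1, fun q => n2 (decL_B4.mp q), fun q => n3 (decL_C5.mp q)⟩
  · -- stop
    intro hmo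
    rw [hm] at hmo
    rw [bif_true, nbeq_true, nbeq_false] at h2
    have h := h2.1 hmo
    rw [Bool.or_eq_true, Bool.or_eq_true, topAB_iff, nbeq_true, nbeq_true] at h
    rw [hl, decL_B4, decL_C5, ← or_assoc]
    exact h
  · -- pred
    intro hn
    rw [hbeg, Bool.not_eq_true] at hn
    rw [bif_true] at h3
    rcases one4_ex (h3.2 hn) with h | h | h | h
    · exact ⟨1, (p1_iff C e).mp h⟩
    · exact ⟨2, (p2_iff C e).mp h⟩
    · exact ⟨3, (p3_iff C e).mp h⟩
    · exact ⟨4, (p4_iff C e).mp h⟩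
  · -- start
    intro hs k hk
    rw [hbeg] at hs
    rw [bif_true] at h3
    have h := h3.1 hs
    simp only [Bool.and_eq_true, Bool.not_eq_true', ← Bool.not_eq_true, p1_iff, p2_iff, p3_iff,
      p4_iff] at h
    obtain ⟨⟨⟨n1, n2⟩, n3⟩, n4⟩ := h
    rcases pred_cases hk with ⟨-, h⟩ | ⟨-, h⟩ | ⟨-, h⟩ | ⟨-, h⟩
    · exact n1 h
    · exact n2 h
    · exact n3 h
    · exact n4 h
  · -- top
    intro ht
    rw [hl, decL_B4] at ht
    rw [bif_true, Bool.or_eq_true, topAB_iff, nbeq_true] at h4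
    have h := h4.1 ht
    rw [Bool.and_eq_true, redB_iff, nbeq_true] at h
    exact ⟨h.1, decL_B0.mpr h.2⟩
  · -- topOf
    intro hb
    rw [hl, decL_B0] at hb
    rw [bif_true, nbeq_true] at h5
    have h := h5.1 hb
    rw [Bool.and_eq_true, ble_true, Bool.or_eq_true, nbeq_true] at h
    obtain ⟨k1, k2⟩ := h
    refine ⟨⟨e.e1 - 1, e.e2, e.e3, e.e4, e.e5⟩, ?_, ?_⟩
    · unfold x1
      obtain ⟨e1, e2, e3, e4, e5⟩ := e
      change 1 ≤ e1 at k1
      change (⟨e1, e2, e3, e4, e5⟩ : Mon) = ⟨e1 - 1 + 1, e2, e3, e4, e5⟩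
      rw [Nat.sub_add_cancel k1]
    · rcases k2 with k | k
      · left
        exact (topAB_iff _ ⟨e.e1 - 1, e.e2, e.e3, e.e4, e.e5⟩).mp k
      · right
        exact decL_B4.mpr k
  · -- bot
    intro ht
    rw [hl, decL_C0] at ht
    rw [bif_true, Bool.or_eq_true, botAB_iff, nbeq_true] at h6
    have h := h6.1 ht
    rw [Bool.and_eq_true, Bool.and_eq_true, redB_iff, nbeq_true, nbeq_true] at h
    exact ⟨h.1.1, h.1.2, decL_C5.mpr h.2⟩
  · -- botOf
    intro hb
    rw [hl, decL_C5] at hb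
    rw [bif_true, nbeq_true] at h7
    have h := h7.1 hb
    rw [Bool.and_eq_true, Bool.and_eq_true, ble_true, ble_true, Bool.or_eq_true, nbeq_true] at h
    obtain ⟨⟨k1, k1'⟩, k2⟩ := h
    refine ⟨⟨e.e1, e.e2, e.e3 - 1, e.e4 - 1, e.e5⟩, ?_, ?_⟩
    · unfold x34
      obtain ⟨e1, e2, e3, e4, e5⟩ := e
      change 1 ≤ e3 at k1
      change 1 ≤ e4 at k1'
      change (⟨e1, e2, e3, e4, e5⟩ : Mon) = ⟨e1, e2, e3 - 1 + 1, e4 - 1 + 1, e5⟩
      rw [Nat.sub_add_cancel k1, Nat.sub_add_cancel k1']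
    · rcases k2 with k | k
      · left
        exact (botAB_iff _ ⟨e.e1, e.e2, e.e3 - 1, e.e4 - 1, e.e5⟩).mp k
      · right
        exact decL_C0.mpr k
  · -- okE
    intro hz
    unfold zE at hz
    rw [bif_true, ble_true, ble_true] at h8
    rw [hl]
    exact ⟨_, decL_C (h8.1 hz)⟩
  · -- okD
    intro hz
    unfold zD at hz
    rw [bif_true, ble_true, Bool.and_eq_true, ble_true, ble_true] at h9
    obtain ⟨k1, k2⟩ := h9.1 hz
    rw [hl]
    exact ⟨_, decL_B k1 (by omega)⟩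
  · -- ok2
    intro hz
    unfold z2 at hz
    rw [bif_true, Bool.and_eq_true, ble_true, ble_true, Bool.or_eq_true, Bool.and_eq_true,
      Bool.and_eq_true, Bool.not_eq_true', ← Bool.not_eq_true, topAB_iff, ble_true, ble_true,
      blt_true] at h10
    rw [hl]
    rcases h10.1 hz with k | ⟨⟨k1, k2⟩, k3⟩
    · left; exact ⟨_, decL_C k⟩
    · right
      rw [decL_L k1 k2] at k3 ⊢
      exact ⟨_, rfl, k3⟩
  · -- ok3
    intro hz
    unfold z3 at hz
    rw [bif_true, Bool.and_eq_true, ble_true, ble_true, Bool.or_eq_true, Bool.and_eq_true,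
      Bool.and_eq_true, Bool.and_eq_true, Bool.not_eq_true', ← Bool.not_eq_true, botAB_iff,
      ble_true, ble_true, ble_true, blt_true] at h11
    rw [hl]
    rcases h11.1 hz with ⟨k1, k2⟩ | ⟨⟨k1, k2⟩, k3⟩
    · left; exact ⟨_, decL_B k1 (by omega)⟩
    · right
      rw [decL_L k1 k2] at k3 ⊢
      exact ⟨_, rfl, k3⟩
  · -- okS
    intro hz c hc
    unfold zS at hz
    rw [bif_true, Bool.and_eq_true, ble_true, ble_true, Bool.not_eq_true', ← Bool.not_eq_true,
      Bool.and_eq_true, ble_true, blt_true] at h12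
    have h := h12.1 hz
    rw [hl] at hc
    rcases decL_cases l with ⟨k1, k⟩ | ⟨k1, k2, k⟩ | ⟨k1, k2, k⟩ | ⟨k1, k⟩
    · rw [k] at hc; cases hc
    · exact h ⟨k1, k2⟩
    · rw [k] at hc; cases hc
    · rw [k] at hc; cases hc

open Sound in
theorem rows_sound (C : ℕ → ℕ → ℕ → ℕ → ℕ → ℕ)
    (h : ∀ e5 < 39, chkRow C (67) e5 = true) :
    ∀ e, Red 2 2 e → InOm e → Loc (labOf C) (moOf C) e ∧ ZoneOK (labOf C) e := by
  intro e hr ho
  apply chk_sound
  obtain ⟨e1, e2, e3, e4, e5⟩ := e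
  obtain ⟨r1, r2, r3⟩ := hr
  obtain ⟨o1, o2, o3, o4, o5⟩ := ho
  simp only at r1 r2 r3 o1 o2 o3 o4 o5 ⊢
  have b5 : e5 < 39 := by omega
  have b1 : e1 < 67 := by omega
  have hrow := h e5 b5
  unfold chkRow at hrow
  rw [allN_true] at hrow
  have hrow := hrow e1 b1
  rw [bif_true] at hrow
  have hpair : pairB e1 e5 = true := by
    unfold pairB
    rw [Bool.and_eq_true, Bool.and_eq_true, Bool.not_eq_true', ← Bool.not_eq_true,
      Bool.and_eq_true, blt_true, blt_true, ble_true, ble_true]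
    exact ⟨⟨by omega, by omega⟩, o5⟩
  have hrow := hrow.1 hpair
  rw [allN_true] at hrow
  have hrow := hrow e2 (by
    rcases Nat.lt_or_ge 1 e5 with k | k
    · rw [ble_false.mpr k]; change e2 < 10; omega
    · rw [ble_true.mpr k]; change e2 < 17; omega)
  rw [allN_true] at hrow
  have hrow := hrow e3 (by
    rcases Nat.lt_or_ge 1 e1 with k | k
    · rw [ble_false.mpr k]; change e3 < 6; omega
    · rw [ble_true.mpr k]; change e3 < 15; omega)
  rw [bif_true] at hrow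
  have hom : omB e1 e2 e3 e5 = true := by
    unfold omB
    rw [Bool.and_eq_true, blt_true, blt_true]
    exact ⟨by omega, by omega⟩
  have hrow := hrow.1 hom
  rw [Bool.and_eq_true] at hrow
  have h4 : e4 = 0 ∨ e4 = 1 := by omega
  rcases h4 with k | k
  · rw [k]; exact hrow.1
  · rw [k]; exact hrow.2

open Sound in
theorem cod_eq (T W V : List ℕ) (e : Mon) :
    cod T W V e.e1 e.e2 e.e3 e.e4 e.e5 =
      look T W V (ka e).e1 (ka e).e2 (ka e).e3 (ka e).e4 (ka e).e5 := by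
  unfold cod ka
  simp only
  split_ifs with h1 h2
  · rw [ble_true.mpr h1]; rfl
  · rw [ble_false.mpr (Nat.lt_of_not_le h1), ble_true.mpr h2]; rfl
  · rw [ble_false.mpr (Nat.lt_of_not_le h1), ble_false.mpr (Nat.lt_of_not_le h2)]; rfl

end Pool.LS
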